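import Pool.Agent.N666.VE.FC

set_option autoImplicit false

/-! # The Fermat-Catalan equation near generalised polynomials: integers and primes -/

namespace Pool.Agent.N666.VE

open Finset Filter
open Pool.Agent.W147.PS (ev_pow)
open Pool.Agent.Y961.JR (Fam)
open Pool.Agent.TH915.PW (card_primes)

lemma card_ints (δ : ℝ) (hδ : 0 < δ) :
    ∀ᶠ N : ℕ in atTop, (N : ℝ) ^ (1 - δ / 4) ≤ ((Ioc N (2 * N)).card : ℝ) := by
  filter_upwards [eventually_ge_atTop 1] with N hN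
  have hN1 : (1 : ℝ) ≤ N := by exact_mod_cast hN
  rw [Nat.card_Ioc]
  have h1 : 2 * N - N = N := by omega
  rw [h1]
  calc (N : ℝ) ^ (1 - δ / 4) ≤ (N : ℝ) ^ (1 : ℝ) :=
        Real.rpow_le_rpow_of_exponent_le hN1 (by linarith)
    _ = N := Real.rpow_one _

lemma card_primes' (δ : ℝ) (hδ : 0 < δ) :
    ∀ᶠ N : ℕ in atTop, (N : ℝ) ^ (1 - δ / 4) ≤ ((primes N).card : ℝ) := by
  have h1 := card_primes 1 one_pos 0 (Nat.coprime_one_right 0) 1 (δ / 4) one_pos le_rfl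
    (by positivity)
  filter_upwards [tendsto_natCast_atTop_atTop.eventually h1] with N hN
  refine hN.trans ?_
  have h2 : ⌊(1 + 1) * (N : ℝ)⌋₊ = 2 * N := by
    have : (1 + 1) * (N : ℝ) = ((2 * N : ℕ) : ℝ) := by push_cast; ring
    rw [this, Nat.floor_natCast]
  rw [h2, Nat.floor_natCast]
  have h3 : (Ioc N (2 * N)).filter (fun p => p.Prime ∧ p ≡ 0 [MOD 1]) ⊆ primes N := by
    intro p hp
    rw [Finset.mem_filter] at hp
    rw [primes, Finset.mem_filter]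
    exact ⟨hp.1, hp.2.1⟩
  exact_mod_cast Finset.card_le_card h3

/-- integers -/
theorem fc_ints (F : Fin 2 → Finset ℝ) (a : Fin 2 → ℝ → ℝ) (c : Fin 2 → ℝ) (H : Fam F a c) (U : ℕ) :
    ∃ κ : ℝ, 0 < κ ∧ ∀ ε : ℝ, 0 < ε → ∃ N₀ : ℕ, ∀ N : ℕ, N₀ ≤ N →
      ({n : ℕ | N < n ∧ n ≤ 2 * N ∧ ∃ x y : ℕ, Near U (val F a n) x y ∧
        BadPair (Real.exp ((n : ℝ) ^ κ)) x y}.ncard : ℝ) ≤ ε * N := by
  classical
  obtain ⟨δ, hδ, -, hEq⟩ := equi_ints (by norm_num : 1 ≤ 2) H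
  obtain ⟨κ, hκ, h⟩ := core F a (fun N => Ioc N (2 * N)) (fun _ => Finset.Subset.refl _) δ hδ hEq
    (card_ints δ hδ) U
  refine ⟨κ, hκ, fun ε hε => ?_⟩
  obtain ⟨N₀, hN₀⟩ := h ε hε
  refine ⟨N₀, fun N hN => ?_⟩
  have h1 := hN₀ N hN (fun n => ∃ x y : ℕ, Near U (val F a n) x y ∧
        BadPair (Real.exp ((n : ℝ) ^ κ)) x y) (fun n _ h => h)
  have h2 : {n : ℕ | N < n ∧ n ≤ 2 * N ∧ ∃ x y : ℕ, Near U (val F a n) x y ∧
        BadPair (Real.exp ((n : ℝ) ^ κ)) x y} = (((Ioc N (2 * N)).filter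
        (fun n => ∃ x y : ℕ, Near U (val F a n) x y ∧
        BadPair (Real.exp ((n : ℝ) ^ κ)) x y) : Finset ℕ) : Set ℕ) := by
    ext n
    simp only [Set.mem_ofPred_eq, Finset.coe_filter, Finset.mem_Ioc]
    tauto
  rw [h2, Set.ncard_coe_finset]
  refine h1.trans (le_of_eq ?_)
  rw [Nat.card_Ioc]
  congr 2
  omega

/-- primes -/
theorem fc_primes (F : Fin 2 → Finset ℝ) (a : Fin 2 → ℝ → ℝ) (c : Fin 2 → ℝ) (H : Fam F a c) (U : ℕ) :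
    ∃ κ : ℝ, 0 < κ ∧ ∀ ε : ℝ, 0 < ε → ∃ N₀ : ℕ, ∀ N : ℕ, N₀ ≤ N →
      ({n : ℕ | n.Prime ∧ N < n ∧ n ≤ 2 * N ∧ ∃ x y : ℕ, Near U (val F a n) x y ∧
        BadPair (Real.exp ((n : ℝ) ^ κ)) x y}.ncard : ℝ) ≤
      ε * ({n : ℕ | n.Prime ∧ N < n ∧ n ≤ 2 * N}.ncard : ℝ) := by
  classical
  obtain ⟨δ, hδ, -, hEq⟩ := equi_primes (by norm_num : 1 ≤ 2) H
  obtain ⟨κ, hκ, h⟩ := core F a primes (fun _ => Finset.filter_subset _ _) δ hδ hEq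
    (card_primes' δ hδ) U
  refine ⟨κ, hκ, fun ε hε => ?_⟩
  obtain ⟨N₀, hN₀⟩ := h ε hε
  refine ⟨N₀, fun N hN => ?_⟩
  have h1 := hN₀ N hN (fun n => ∃ x y : ℕ, Near U (val F a n) x y ∧
        BadPair (Real.exp ((n : ℝ) ^ κ)) x y) (fun n _ h => h)
  have h2 : {n : ℕ | n.Prime ∧ N < n ∧ n ≤ 2 * N ∧ ∃ x y : ℕ, Near U (val F a n) x y ∧
        BadPair (Real.exp ((n : ℝ) ^ κ)) x y} = (((primes N).filter
        (fun n => ∃ x y : ℕ, Near U (val F a n) x y ∧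
        BadPair (Real.exp ((n : ℝ) ^ κ)) x y) : Finset ℕ) : Set ℕ) := by
    ext n
    simp only [Set.mem_ofPred_eq, Finset.coe_filter, primes, Finset.mem_filter, Finset.mem_Ioc]
    tauto
  have h3 : {n : ℕ | n.Prime ∧ N < n ∧ n ≤ 2 * N} = ((primes N : Finset ℕ) : Set ℕ) := by
    ext n
    simp only [Set.mem_ofPred_eq, primes, Finset.coe_filter, Finset.mem_Ioc]
    tauto
  rw [h2, h3, Set.ncard_coe_finset, Set.ncard_coe_finset]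
  exact h1

end Pool.Agent.N666.VE
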