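import Mathlib
import Pool.Agent.TH888.B1.Core
import Pool.Agent.H374R2.BealFour
import Pool.Agent.H374R2.T.Two

set_option autoImplicit false

/-! # Sets of pairs covered by few residue classes

The sieve conditions of `Pool.Agent.H374R2` (pairs of bases for which no solution with a given third
exponent exists) in a form that can be used for arbitrary equidistributed sequences of pairs. -/

namespace Pool.Agent.N666.VE

open Finset
open Pool.Agent.H374R2.Beal
open Pool.Agent.H374R2.T (Good2)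

/-- for every `ε` the set is covered by `ε M ^ 2` classes modulo some `M` -/
def CN (E : Set (ℕ × ℕ)) : Prop := ∀ ε : ℝ, 0 < ε → ∃ M : ℕ, 0 < M ∧ ∃ S : Finset (ℕ × ℕ),
  S ⊆ range M ×ˢ range M ∧ (S.card : ℝ) ≤ ε * (M : ℝ) ^ 2 ∧ ∀ p ∈ E, (p.1 % M, p.2 % M) ∈ S

theorem CN.mono {E E' : Set (ℕ × ℕ)} (h : CN E') (hE : E ⊆ E') : CN E := by
  intro ε hε
  obtain ⟨M, hM, S, h1, h2, h3⟩ := h ε hε
  exact ⟨M, hM, S, h1, h2, fun p hp => h3 p (hE hp)⟩

theorem CN.swap {E : Set (ℕ × ℕ)} (h : CN E) : CN (Prod.swap ⁻¹' E) := by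
  classical
  intro ε hε
  obtain ⟨M, hM, S, h1, h2, h3⟩ := h ε hε
  refine ⟨M, hM, S.image Prod.swap, ?_, ?_, ?_⟩
  · intro p hp
    rw [Finset.mem_image] at hp
    obtain ⟨p', hp', rfl⟩ := hp
    have := h1 hp'
    rw [Finset.mem_product] at this ⊢
    exact ⟨this.2, this.1⟩
  · have : ((S.image Prod.swap).card : ℝ) ≤ S.card := by exact_mod_cast Finset.card_image_le
    linarith
  · intro p hp
    rw [Finset.mem_image]
    exact ⟨(p.2 % M, p.1 % M), h3 _ hp, rfl⟩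

lemma card_lift {M₁ M₂ : ℕ} (hM₁ : 0 < M₁) (S : Finset (ℕ × ℕ)) :
    ((range (M₁ * M₂) ×ˢ range (M₁ * M₂)).filter
      (fun p : ℕ × ℕ => (p.1 % M₁, p.2 % M₁) ∈ S)).card ≤ S.card * (M₂ * M₂) := by
  classical
  have h1 : (S ×ˢ (range M₂ ×ˢ range M₂)).card = S.card * (M₂ * M₂) := by
    rw [Finset.card_product, Finset.card_product, Finset.card_range]
  rw [← h1]
  apply Finset.card_le_card_of_injOn
    (fun p => ((p.1 % M₁, p.2 % M₁), (p.1 / M₁, p.2 / M₁)))
  · intro p hp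
    rw [Finset.mem_coe, Finset.mem_filter, Finset.mem_product, Finset.mem_range, Finset.mem_range] at hp
    rw [Finset.mem_coe, Finset.mem_product, Finset.mem_product, Finset.mem_range, Finset.mem_range]
    exact ⟨hp.2, (Nat.div_lt_iff_lt_mul hM₁).mpr (by rw [mul_comm]; exact hp.1.1),
      (Nat.div_lt_iff_lt_mul hM₁).mpr (by rw [mul_comm]; exact hp.1.2)⟩
  · rintro ⟨a, b⟩ _ ⟨a', b'⟩ _ h
    simp only [Prod.mk.injEq] at h
    obtain ⟨⟨h1, h2⟩, h3, h4⟩ := h
    rw [Prod.mk.injEq]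
    constructor
    · rw [← Nat.mod_add_div a M₁, ← Nat.mod_add_div a' M₁, h1, h3]
    · rw [← Nat.mod_add_div b M₁, ← Nat.mod_add_div b' M₁, h2, h4]

theorem CN.union {E E' : Set (ℕ × ℕ)} (h : CN E) (h' : CN E') : CN (E ∪ E') := by
  classical
  intro ε hε
  obtain ⟨M₁, hM₁, S₁, a1, a2, a3⟩ := h (ε / 2) (by positivity)
  obtain ⟨M₂, hM₂, S₂, b1, b2, b3⟩ := h' (ε / 2) (by positivity)
  set M := M₁ * M₂ with hM
  refine ⟨M, Nat.mul_pos hM₁ hM₂, (range M ×ˢ range M).filter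
    (fun p : ℕ × ℕ => (p.1 % M₁, p.2 % M₁) ∈ S₁ ∨ (p.1 % M₂, p.2 % M₂) ∈ S₂),
    Finset.filter_subset _ _, ?_, ?_⟩
  · rw [Finset.filter_or]
    have h1 := Finset.card_union_le
      ((range M ×ˢ range M).filter (fun p : ℕ × ℕ => (p.1 % M₁, p.2 % M₁) ∈ S₁))
      ((range M ×ˢ range M).filter (fun p : ℕ × ℕ => (p.1 % M₂, p.2 % M₂) ∈ S₂))
    have h2 := card_lift (M₂ := M₂) hM₁ S₁
    have h3 := card_lift (M₂ := M₁) hM₂ S₂
    rw [← hM] at h2
    rw [mul_comm M₂ M₁, ← hM] at h3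
    have h4 : (((range M ×ˢ range M).filter (fun p : ℕ × ℕ => (p.1 % M₁, p.2 % M₁) ∈ S₁) ∪
        (range M ×ˢ range M).filter (fun p : ℕ × ℕ => (p.1 % M₂, p.2 % M₂) ∈ S₂)).card : ℝ) ≤
        S₁.card * (M₂ * M₂) + S₂.card * (M₁ * M₁) := by
      exact_mod_cast h1.trans (Nat.add_le_add h2 h3)
    refine h4.trans ?_
    rw [hM]
    push_cast
    have h5 : (S₁.card : ℝ) * (M₂ * M₂) ≤ (ε / 2 * (M₁ : ℝ) ^ 2) * (M₂ * M₂) := by gcongr
    have h6 : (S₂.card : ℝ) * (M₁ * M₁) ≤ (ε / 2 * (M₂ : ℝ) ^ 2) * (M₁ * M₁) := by gcongr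
    nlinarith
  · intro p hp
    rw [Finset.mem_filter, Finset.mem_product, Finset.mem_range, Finset.mem_range]
    have hM0 : 0 < M := Nat.mul_pos hM₁ hM₂
    refine ⟨⟨Nat.mod_lt _ hM0, Nat.mod_lt _ hM0⟩, ?_⟩
    simp only
    rw [Nat.mod_mod_of_dvd _ (Dvd.intro M₂ hM.symm), Nat.mod_mod_of_dvd _ (Dvd.intro M₂ hM.symm),
      Nat.mod_mod_of_dvd _ (Dvd.intro_left M₁ hM.symm),
      Nat.mod_mod_of_dvd _ (Dvd.intro_left M₁ hM.symm)]
    rcases hp with hp | hp
    · exact Or.inl (a3 p hp)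
    · exact Or.inr (b3 p hp)

theorem cn_empty : CN ∅ := by
  intro ε hε
  exact ⟨1, one_pos, ∅, Finset.empty_subset _, by simpa using hε.le, fun p hp => absurd hp (by simp)⟩

/-- the finite sieve -/
theorem cn_fin (R : Set ℕ) (hR : ∀ r ∈ R, r.Prime)
    (hdiv : ¬ Summable (fun r : ℕ => R.indicator (fun n : ℕ => (1 : ℝ) / n) r))
    (W : ∀ r : ℕ, Set (ZMod r × ZMod r)) (c : ℝ) (hc : 0 < c)
    (hT : ∀ r ∈ R, c * r ≤ (W r).ncard) :
    CN {p | ∀ r ∈ R, ¬ (((p.1 : ZMod r), (p.2 : ZMod r)) ∈ W r)} := by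
  classical
  intro ε hε
  obtain ⟨G, hGR, L, hL⟩ := Pool.Agent.TH888.B1.uniform_fin R hR hdiv W c hc hT ε hε
  set M : ℕ := ∏ r ∈ G, r with hM
  have hM0 : 0 < M := Finset.prod_pos fun r hr => (hR r (hGR r hr)).pos
  set S : Finset (ℕ × ℕ) := (range M ×ˢ range M).filter
    (fun p => ∀ r ∈ G, ¬ (((p.1 : ZMod r), (p.2 : ZMod r)) ∈ W r)) with hS
  have hcast : ∀ r ∈ G, ∀ x y : ℕ, ((x + M * y : ℕ) : ZMod r) = (x : ZMod r) := by
    intro r hr x y
    have h1 : (M : ZMod r) = 0 := by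
      rw [ZMod.natCast_eq_zero_iff]
      exact Finset.dvd_prod_of_mem _ hr
    push_cast
    rw [h1, zero_mul, add_zero]
  refine ⟨M, hM0, S, Finset.filter_subset _ _, ?_, ?_⟩
  · have h1 := hL (M * (L + 1)) (M * (L + 1)) (by nlinarith) (by nlinarith) (M - 1) (M - 1)
    set T : Set (ℕ × ℕ) := {p : ℕ × ℕ | ∀ r ∈ G, ¬ (((p.1 : ZMod r), (p.2 : ZMod r)) ∈ W r)} ∩
        (Set.Ioc (M - 1) (M - 1 + M * (L + 1)) ×ˢ Set.Ioc (M - 1) (M - 1 + M * (L + 1))) with hT'
    have hTfin : T.Finite := Set.Finite.subset ((Set.finite_Ioc _ _).prod (Set.finite_Ioc _ _))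
      Set.inter_subset_right
    have h2 : (S ×ˢ (range (L + 1) ×ˢ range (L + 1))).card ≤ T.ncard := by
      rw [Set.ncard_eq_toFinset_card T hTfin]
      apply Finset.card_le_card_of_injOn
        (fun x => (x.1.1 + M * (x.2.1 + 1), x.1.2 + M * (x.2.2 + 1)))
      · rintro ⟨⟨x, y⟩, i, j⟩ hx
        rw [Finset.mem_coe, Finset.mem_product, Finset.mem_product, Finset.mem_range,
          Finset.mem_range, hS, Finset.mem_filter, Finset.mem_product, Finset.mem_range,
          Finset.mem_range] at hx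
        obtain ⟨⟨⟨h3, h4⟩, h5⟩, h6, h7⟩ := hx
        simp only at h3 h4 h5 h6 h7
        rw [Finset.mem_coe, Set.Finite.mem_toFinset, hT']
        refine ⟨?_, ?_⟩
        · intro r hr
          have h8 := h5 r hr
          simp only
          rw [hcast r hr, hcast r hr]
          exact h8
        · have h8 : M * (i + 1) ≤ M * (L + 1) := Nat.mul_le_mul_left _ (by omega)
          have h9 : M * (j + 1) ≤ M * (L + 1) := Nat.mul_le_mul_left _ (by omega)
          have h10 : M ≤ M * (i + 1) := Nat.le_mul_of_pos_right _ (by omega)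
          have h11 : M ≤ M * (j + 1) := Nat.le_mul_of_pos_right _ (by omega)
          simp only [Set.mem_prod, Set.mem_Ioc]
          omega
      · rintro ⟨⟨x, y⟩, i, j⟩ hx ⟨⟨x', y'⟩, i', j'⟩ hx' h
        rw [Finset.mem_coe, Finset.mem_product, Finset.mem_product, Finset.mem_range,
          Finset.mem_range, hS, Finset.mem_filter, Finset.mem_product, Finset.mem_range,
          Finset.mem_range] at hx hx'
        simp only [Prod.mk.injEq] at h hx hx' ⊢
        obtain ⟨⟨⟨h3, h4⟩, -⟩, -⟩ := hx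
        obtain ⟨⟨⟨h3', h4'⟩, -⟩, -⟩ := hx'
        have e1 : x = x' := by
          have := congrArg (· % M) h.1
          simp only [Nat.add_mul_mod_self_left] at this
          rwa [Nat.mod_eq_of_lt h3, Nat.mod_eq_of_lt h3'] at this
        have e2 : y = y' := by
          have := congrArg (· % M) h.2
          simp only [Nat.add_mul_mod_self_left] at this
          rwa [Nat.mod_eq_of_lt h4, Nat.mod_eq_of_lt h4'] at this
        have e3 : i = i' := by
          have h5 : M * (i + 1) = M * (i' + 1) := by omega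
          have := Nat.eq_of_mul_eq_mul_left hM0 h5
          omega
        have e4 : j = j' := by
          have h5 : M * (j + 1) = M * (j' + 1) := by omega
          have := Nat.eq_of_mul_eq_mul_left hM0 h5
          omega
        exact ⟨⟨e1, e2⟩, e3, e4⟩
    rw [Finset.card_product, Finset.card_product, Finset.card_range] at h2
    have h3 : (S.card : ℝ) * ((L + 1 : ℕ) * (L + 1 : ℕ)) ≤
        ε * (((M * (L + 1) : ℕ) : ℝ) * ((M * (L + 1) : ℕ) : ℝ)) := by
      refine le_trans ?_ h1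
      exact_mod_cast h2
    have hL0 : (0 : ℝ) < ((L + 1 : ℕ) : ℝ) * ((L + 1 : ℕ) : ℝ) := by positivity
    have h4 : (S.card : ℝ) * ((L + 1 : ℕ) * (L + 1 : ℕ)) ≤
        (ε * (M : ℝ) ^ 2) * (((L + 1 : ℕ) : ℝ) * ((L + 1 : ℕ) : ℝ)) := by
      refine h3.trans (le_of_eq ?_)
      push_cast
      ring
    exact le_of_mul_le_mul_right h4 hL0
  · intro p hp
    rw [hS, Finset.mem_filter, Finset.mem_product, Finset.mem_range, Finset.mem_range]
    refine ⟨⟨Nat.mod_lt _ hM0, Nat.mod_lt _ hM0⟩, ?_⟩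
    intro r hr
    simp only
    have h1 : ∀ x : ℕ, ((x % M : ℕ) : ZMod r) = (x : ZMod r) := by
      intro x
      rw [← hcast r hr (x % M) (x / M), Nat.mod_add_div]
    rw [h1, h1]
    exact hp r (hGR r hr)

theorem cn_core (R : Set ℕ) (hR : ∀ r ∈ R, r.Prime)
    (hdiv : ¬ Summable (fun r : ℕ => R.indicator (fun n : ℕ => (1 : ℝ) / n) r))
    (T : ∀ r : ℕ, Set (ZMod r)) (c : ℝ) (hc : 0 < c)
    (hT : ∀ r ∈ R, c * r ≤ (T r).ncard) :
    CN {p | ∀ r ∈ R, ¬ (r ∣ p.1 ∧ (p.2 : ZMod r) ∈ T r)} := by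
  refine (cn_fin R hR hdiv (fun r => {w | w.1 = 0 ∧ w.2 ∈ T r}) c hc (fun r hr => ?_)).mono ?_
  · have h1 : {w : ZMod r × ZMod r | w.1 = 0 ∧ w.2 ∈ T r} = (fun y => ((0 : ZMod r), y)) '' T r := by
      ext ⟨x, y⟩
      simp only [Set.mem_ofPred_eq, Set.mem_image, Prod.mk.injEq]
      constructor
      · rintro ⟨h2, h3⟩
        exact ⟨y, h3, h2.symm, rfl⟩
      · rintro ⟨z, h2, h3, h4⟩
        exact ⟨h3.symm, h4 ▸ h2⟩
    rw [h1, Set.ncard_image_of_injective _ (fun a b hab => (Prod.mk.inj hab).2)]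
    exact hT r hr
  · intro p hp r hr h
    simp only [Set.mem_ofPred_eq] at h
    exact hp r hr ⟨(ZMod.natCast_eq_zero_iff _ _).mp h.1, h.2⟩

theorem cn_not_good {q : ℕ} (hq : q.Prime) : CN {p | ¬ Good q p.1 p.2} := by
  classical
  have hc : (0 : ℝ) < 1 / (2 * q) := by
    have : (0 : ℝ) < q := by exact_mod_cast hq.pos
    positivity
  set R1 : Set ℕ := {r | (r.Prime ∧ q ∣ r - 1) ∧ ∃ t : ZMod r, t ^ q = (q : ZMod r)} with hR1
  set R2 : Set ℕ := {r | (r.Prime ∧ q ∣ r - 1) ∧ ¬ ∃ t : ZMod r, t ^ q = (q : ZMod r)} with hR2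
  have hne : ∀ r : ℕ, r.Prime → q ∣ r - 1 → (q : ZMod r) ≠ 0 := by
    intro r hr hqr h
    rw [ZMod.natCast_eq_zero_iff] at h
    have h1 : r ≤ q := Nat.le_of_dvd hq.pos h
    have h2 : q ≤ r - 1 := Nat.le_of_dvd (by have := hr.two_le; omega) hqr
    have := hr.two_le
    omega
  by_cases hs : Summable (fun r : ℕ => R1.indicator (fun n : ℕ => (1 : ℝ) / n) r)
  · -- then the sum over `R2` diverges
    have hs2 : ¬ Summable (fun r : ℕ => R2.indicator (fun n : ℕ => (1 : ℝ) / n) r) := by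
      intro h2
      apply primes_one_div q hq.pos
      refine (hs.add h2).congr ?_
      intro r
      simp only [Set.indicator_apply, hR1, hR2, Set.mem_ofPred_eq]
      by_cases h3 : r.Prime ∧ q ∣ r - 1
      · by_cases h4 : ∃ t : ZMod r, t ^ q = (q : ZMod r)
        · simp [h3, h4]
        · simp [h3, h4]
      · simp [h3]
    have hA := cn_core R2 (fun r hr => hr.1.1) hs2 (fun r => UnitPow q r) _ hc
      (fun r hr => unitPow_lower hq.two_le hr.1.1 hr.1.2)
    have hB := cn_core R2 (fun r hr => hr.1.1) hs2 (fun r => NonPow q r) _ hc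
      (fun r hr => nonPow_lower hq.two_le hr.1.1 hr.1.2)
    refine (hA.union hB).mono ?_
    rintro ⟨u, v⟩ hp
    by_contra hcon
    apply hp
    simp only [Set.mem_union, Set.mem_ofPred_eq, not_or, not_forall, not_not] at hcon
    obtain ⟨⟨r1, hr1, hu1, hv1⟩, ⟨r2, hr2, hu2, hv2⟩⟩ := hcon
    intro k y h
    have : Fact r1.Prime := ⟨hr1.1.1⟩
    have : Fact r2.Prime := ⟨hr2.1.1⟩
    -- at `r1` the power `q^k` is a `q`-th power, so `q ∣ k`
    have hk : q ∣ k := by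
      obtain ⟨t, ht⟩ := h r1 hr1.1.1 hu1
      obtain ⟨hv0, s, hs⟩ := hv1
      have hs0 : s ≠ 0 := by
        rintro rfl
        rw [zero_pow hq.ne_zero] at hs
        exact hv0 hs.symm
      refine dvd_of_pow_isPow hq hr1.2 (s := t / s ^ y) ?_
      rw [div_pow, ht, ← pow_mul, mul_comm y q, pow_mul, hs]
      have : (v : ZMod r1) ^ y ≠ 0 := pow_ne_zero _ hv0
      field_simp
    obtain ⟨k', rfl⟩ := hk
    obtain ⟨t, ht⟩ := h r2 hr2.1.1 hu2
    have hq0 := hne r2 hr2.1.1 hr2.1.2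
    refine dvd_of_pow_isPow hq hv2 (s := t / (q : ZMod r2) ^ k') ?_
    rw [div_pow, ht, ← pow_mul, mul_comm k' q]
    have : (q : ZMod r2) ^ (q * k') ≠ 0 := pow_ne_zero _ hq0
    field_simp
  · have hB := cn_core R1 (fun r hr => hr.1.1) hs (fun r => NonPow q r) _ hc
      (fun r hr => nonPow_lower hq.two_le hr.1.1 hr.1.2)
    refine hB.mono ?_
    rintro ⟨u, v⟩ hp
    by_contra hcon
    apply hp
    simp only [Set.mem_ofPred_eq, not_forall, not_not] at hcon
    obtain ⟨r, hr, hu, hv⟩ := hcon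
    intro k y h
    have : Fact r.Prime := ⟨hr.1.1⟩
    obtain ⟨t, ht⟩ := h r hr.1.1 hu
    obtain ⟨s, hs⟩ := hr.2
    have hq0 := hne r hr.1.1 hr.1.2
    have hs0 : s ≠ 0 := by
      rintro rfl
      rw [zero_pow hq.ne_zero] at hs
      exact hq0 hs.symm
    refine dvd_of_pow_isPow hq hv (s := t / s ^ k) ?_
    rw [div_pow, ht, ← pow_mul, mul_comm k q, pow_mul, hs]
    have : (q : ZMod r) ^ k ≠ 0 := pow_ne_zero _ hq0
    field_simp

theorem cn_not_good4 : CN {p | ¬ Good4 p.1 p.2} := by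
  have hc : (0 : ℝ) < 1 / (2 * (2 : ℕ)) := by norm_num
  have hB := cn_core {r : ℕ | r.Prime ∧ 8 ∣ r - 1} (fun r hr => hr.1)
    (primes_one_div 8 (by norm_num)) (fun r => NonPow 2 r) _ hc
    (fun r hr => nonPow_lower le_rfl hr.1 ((by norm_num : (2:ℕ) ∣ 8).trans hr.2))
  refine hB.mono ?_
  rintro ⟨u, v⟩ hp
  by_contra hcon
  apply hp
  simp only [Set.mem_ofPred_eq, not_forall, not_not] at hcon
  obtain ⟨r, hr, hu, hv⟩ := hcon
  intro y h
  have : Fact r.Prime := ⟨hr.1⟩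
  obtain ⟨i, hi⟩ := exists_root_neg_one hr.1 hr.2
  have h1 : ∃ t : ZMod r, t ^ 4 = (v : ZMod r) ^ y := by
    obtain ⟨t, ht | ht⟩ := h r hr.1 hu
    · exact ⟨t, ht⟩
    · exact ⟨i * t, by rw [mul_pow, hi, ht]; ring⟩
  obtain ⟨t, ht⟩ := h1
  have h2 : 2 ∣ y := dvd_of_pow_isPow Nat.prime_two hv (s := t ^ 2) (by rw [← ht]; ring)
  obtain ⟨y', rfl⟩ := h2
  have h3 : (t ^ 2 - (v : ZMod r) ^ y') * (t ^ 2 + (v : ZMod r) ^ y') = 0 := by
    have : (t ^ 2) ^ 2 = ((v : ZMod r) ^ y') ^ 2 := by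
      rw [← pow_mul, ← pow_mul, mul_comm y' 2]; exact ht
    linear_combination this
  have h4 : 2 ∣ y' := by
    rcases mul_eq_zero.mp h3 with h5 | h5
    · exact dvd_of_pow_isPow Nat.prime_two hv (s := t) (by linear_combination h5)
    · exact dvd_of_pow_isPow Nat.prime_two hv (s := i ^ 2 * t) (by
        rw [mul_pow, ← pow_mul, show 2 * 2 = 4 from rfl, hi]; linear_combination -h5)
  obtain ⟨y'', rfl⟩ := h4
  exact ⟨y'', by ring⟩

theorem cn_not_good2 : CN {p | ¬ Good2 p.1 p.2} := by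
  have hc : (0 : ℝ) < 1 / (2 * (2 : ℕ)) := by norm_num
  have hB := cn_core {r : ℕ | r.Prime ∧ 8 ∣ r - 1} (fun r hr => hr.1)
    (primes_one_div 8 (by norm_num)) (fun r => NonPow 2 r) _ hc
    (fun r hr => nonPow_lower le_rfl hr.1 ((by norm_num : (2:ℕ) ∣ 8).trans hr.2))
  refine hB.mono ?_
  rintro ⟨u, v⟩ hp
  by_contra hcon
  apply hp
  simp only [Set.mem_ofPred_eq, not_forall, not_not] at hcon
  obtain ⟨r, hr, hu, hv⟩ := hcon
  intro y h
  have : Fact r.Prime := ⟨hr.1⟩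
  obtain ⟨i, hi⟩ := exists_root_neg_one hr.1 hr.2
  have h1 : ∃ t : ZMod r, t ^ 2 = (v : ZMod r) ^ y := by
    obtain ⟨t, ht | ht⟩ := h r hr.1 hu
    · exact ⟨t, ht⟩
    · exact ⟨i ^ 2 * t, by rw [mul_pow, ← pow_mul, show 2 * 2 = 4 from rfl, hi, ht]; ring⟩
  obtain ⟨t, ht⟩ := h1
  exact dvd_of_pow_isPow Nat.prime_two hv (s := t) ht

theorem cn_exceptional_odd {q n : ℕ} (hq : q.Prime) (hq2 : q ≠ 2) (hqn : q ∣ n) :
    CN (Exceptional n) := by
  have h1 := cn_not_good hq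
  refine (h1.union h1.swap).mono ?_
  rintro ⟨u, v⟩ ⟨hu, hv, huv, x, y, w, hx, hy, hw, h⟩
  simp only at hu hv huv h
  by_contra hcon
  simp only [Set.mem_union, Set.mem_ofPred_eq, Set.mem_preimage, Prod.swap_prod_mk, not_or,
    not_not] at hcon
  obtain ⟨m, rfl⟩ := hqn
  have hodd := hq.odd_of_ne_two hq2
  rcases h with h | h | h
  · refine no_sol_odd hq hq2 huv hcon.1 hcon.2 (Or.inl rfl) x y 0 ((w : ℤ) ^ m) hx hy ?_
    have := congrArg (fun z : ℕ => (z : ℤ)) h
    push_cast at this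
    rw [pow_zero, one_mul, one_mul, this, ← pow_mul, mul_comm q m]
  · refine no_sol_odd hq hq2 huv hcon.1 hcon.2 (Or.inr rfl) x y 0 (-(w : ℤ) ^ m) hx hy ?_
    have := congrArg (fun z : ℕ => (z : ℤ)) h
    push_cast at this
    rw [pow_zero, one_mul, hodd.neg_pow, ← pow_mul, mul_comm m q]
    linear_combination this
  · refine no_sol_odd hq hq2 huv hcon.1 hcon.2 (Or.inr rfl) x y 0 ((w : ℤ) ^ m) hx hy ?_
    have := congrArg (fun z : ℕ => (z : ℤ)) h
    push_cast at this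
    rw [pow_zero, one_mul, ← pow_mul, mul_comm m q]
    linear_combination -this

theorem cn_exceptional_four {n : ℕ} (h4n : 4 ∣ n) : CN (Exceptional n) := by
  have h1 := cn_not_good4
  refine (h1.union h1.swap).mono ?_
  rintro ⟨u, v⟩ ⟨hu, hv, huv, x, y, w, hx, hy, hw, h⟩
  simp only at hu hv huv h
  by_contra hcon
  simp only [Set.mem_union, Set.mem_ofPred_eq, Set.mem_preimage, Prod.swap_prod_mk, not_or,
    not_not] at hcon
  obtain ⟨m, rfl⟩ := h4n
  have hy4 : 4 ∣ y := by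
    apply hcon.1 y
    intro r hr hru
    have hr0 : (u : ZMod r) = 0 := (ZMod.natCast_eq_zero_iff u r).mpr hru
    refine ⟨(w : ZMod r) ^ m, ?_⟩
    rcases h with h | h | h
    · left
      have := congrArg (fun z : ℕ => (z : ZMod r)) h
      push_cast at this
      rw [hr0, zero_pow hx.ne', zero_add] at this
      rw [this, ← pow_mul, mul_comm 4 m]
    · left
      have := congrArg (fun z : ℕ => (z : ZMod r)) h
      push_cast at this
      rw [hr0, zero_pow hx.ne', zero_add] at this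
      rw [← this, ← pow_mul, mul_comm 4 m]
    · right
      have := congrArg (fun z : ℕ => (z : ZMod r)) h
      push_cast at this
      rw [hr0, zero_pow hx.ne'] at this
      rw [← pow_mul, mul_comm m 4]
      linear_combination this
  have hx4 : 4 ∣ x := by
    apply hcon.2 x
    intro r hr hrv
    have hr0 : (v : ZMod r) = 0 := (ZMod.natCast_eq_zero_iff v r).mpr hrv
    refine ⟨(w : ZMod r) ^ m, ?_⟩
    rcases h with h | h | h
    · left
      have := congrArg (fun z : ℕ => (z : ZMod r)) h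
      push_cast at this
      rw [hr0, zero_pow hy.ne', add_zero] at this
      rw [this, ← pow_mul, mul_comm 4 m]
    · right
      have := congrArg (fun z : ℕ => (z : ZMod r)) h
      push_cast at this
      rw [hr0, zero_pow hy.ne'] at this
      rw [← pow_mul, mul_comm m 4]
      linear_combination this
    · left
      have := congrArg (fun z : ℕ => (z : ZMod r)) h
      push_cast at this
      rw [hr0, zero_pow hy.ne', zero_add] at this
      rw [← this, ← pow_mul, mul_comm 4 m]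
  obtain ⟨x', rfl⟩ := hx4
  obtain ⟨y', rfl⟩ := hy4
  have hF := fermatLastTheoremFour
  rw [mul_comm 4 x', mul_comm 4 y', mul_comm 4 m, pow_mul, pow_mul, pow_mul] at h
  have hu' : u ^ x' ≠ 0 := pow_ne_zero _ hu.ne'
  have hv' : v ^ y' ≠ 0 := pow_ne_zero _ hv.ne'
  have hw' : w ^ m ≠ 0 := pow_ne_zero _ hw.ne'
  rcases h with h | h | h
  · exact hF _ _ _ hu' hv' hw' h
  · exact hF _ _ _ hu' hw' hv' h
  · exact hF _ _ _ hv' hw' hu' h

theorem cn_exceptional_null {n : ℕ} (hn : 3 ≤ n) : CN (Exceptional n) := by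
  rcases Nat.four_dvd_or_exists_odd_prime_and_dvd_of_two_lt (n := n) (by omega) with h | ⟨p, hp, hpn, hodd⟩
  · exact cn_exceptional_four h
  · exact cn_exceptional_odd hp (by rintro rfl; exact absurd hodd (by decide)) hpn


end Pool.Agent.N666.VE
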