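import Pool.Agent.N666.VE.Exp
import Pool.Agent.Y961.JR.Disc

set_option autoImplicit false

/-! # Joint distribution of the integer parts in residue classes -/

namespace Pool.Agent.N666.VE

open Finset Filter
open Pool.Agent.H469R2.NK (e)
open Pool.Agent.W147.PS (ev_pow)
open Pool.Agent.Y961.JR

/-- the elements of `s N` with integer parts in the class `ρ` modulo `q` -/
noncomputable def cls {r : ℕ} (s : Finset ℕ) (x : ℕ → Fin r → ℝ) (q : ℕ) (ρ : Fin r → ℤ) : Finset ℕ :=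
  s.filter (fun n => ∀ j, (q : ℤ) ∣ ⌊x n j⌋ - ρ j)

/-- power saving for all moduli up to a power -/
def Equi {r : ℕ} (s : ℕ → Finset ℕ) (x : ℕ → Fin r → ℝ) (δ : ℝ) : Prop :=
  ∃ N₀ : ℕ, ∀ N : ℕ, N₀ ≤ N → ∀ q : ℕ, 1 ≤ q → (q : ℝ) ≤ (N : ℝ) ^ δ → ∀ ρ : Fin r → ℤ,
    |((cls (s N) x q ρ).card : ℝ) - (s N).card / (q : ℝ) ^ r| ≤ (N : ℝ) ^ (1 - δ)

theorem equi_of_small {r : ℕ} (hr : 1 ≤ r) (s : ℕ → Finset ℕ) (hs : ∀ N, s N ⊆ Ioc N (2 * N))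
    (x : ℕ → Fin r → ℝ) (hx : Small (r := r) s x) : ∃ δ : ℝ, 0 < δ ∧ δ ≤ 1 / 2 ∧ Equi s x δ := by
  classical
  obtain ⟨η, hη, hη1, N₁, hN₁⟩ := hx
  have hr0 : (1 : ℝ) ≤ r := by exact_mod_cast hr
  set θ : ℝ := η / (6 * (r + 1)) with hθ
  have hθ0 : 0 < θ := by positivity
  have hθη : 3 * r * θ ≤ η / 2 := by
    rw [hθ, ← mul_div_assoc, div_le_iff₀ (by positivity)]
    nlinarith
  have hθη' : θ ≤ η / 12 := by
    rw [hθ]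
    apply div_le_div_of_nonneg_left hη.le (by norm_num) (by linarith)
  set δ : ℝ := θ / (4 * (r + 1)) with hδ
  have hδ0 : 0 < δ := by positivity
  have hδθ : r * δ ≤ θ / 4 := by
    rw [hδ, ← mul_div_assoc, div_le_iff₀ (by positivity)]
    nlinarith
  have hδθ' : δ ≤ θ / 8 := by
    rw [hδ]
    apply div_le_div_of_nonneg_left hθ0.le (by norm_num) (by linarith)
  have hev : ∀ᶠ Z : ℝ in atTop, 1 ≤ Z ∧ 1 ≤ Z ^ θ ∧ 8 * Z ^ (3 * θ) ≤ Z ^ η ∧ 3 * Z ^ δ ≤ Z ^ θ ∧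
      (2 * (3 * r + 4)) * Z ^ (1 - θ + θ / 4) ≤ Z ^ (1 - δ) ∧
      (2 * 8 ^ r) * Z ^ (1 - η / 2 + θ / 4) ≤ Z ^ (1 - δ) := by
    filter_upwards [eventually_ge_atTop (1 : ℝ), ev_pow (3 * θ) η 8 (by linarith),
      ev_pow δ θ 3 (by linarith), ev_pow (1 - θ + θ / 4) (1 - δ) (2 * (3 * r + 4)) (by linarith),
      ev_pow (1 - η / 2 + θ / 4) (1 - δ) (2 * 8 ^ r) (by linarith)] with Z h1 h2 h3 h4 h5
    exact ⟨h1, Real.one_le_rpow h1 hθ0.le, h2, h3, h4, h5⟩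
  obtain ⟨Z₀, hZ₀⟩ := eventually_atTop.mp hev
  refine ⟨δ, hδ0, by linarith, ⌈Z₀⌉₊ + N₁ + 1, ?_⟩
  intro N hN q hq hqN ρ
  have hNZ : Z₀ ≤ N := (Nat.le_ceil Z₀).trans (by exact_mod_cast (by omega : ⌈Z₀⌉₊ ≤ N))
  obtain ⟨hN1, hNθ, h3θ, h3δ, hA, hB⟩ := hZ₀ N hNZ
  have hN0 : (0 : ℝ) < N := by linarith
  set K : ℕ := ⌈(N : ℝ) ^ θ⌉₊ with hK
  have hK1 : (N : ℝ) ^ θ ≤ K := Nat.le_ceil _
  have hK2 : (K : ℝ) ≤ 2 * (N : ℝ) ^ θ := by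
    have := Nat.ceil_lt_add_one (show 0 ≤ (N : ℝ) ^ θ by positivity)
    linarith
  have hK1' : 1 ≤ K := by
    have : (1 : ℝ) ≤ K := hNθ.trans hK1
    exact_mod_cast this
  have hK0 : (0 : ℝ) < K := by exact_mod_cast hK1'
  have h3q : 3 * q ≤ K := by
    have : 3 * (q : ℝ) ≤ K := by linarith
    exact_mod_cast this
  have hq0 : (0 : ℝ) < q := by exact_mod_cast hq
  have hqη : (q : ℝ) ≤ (N : ℝ) ^ η :=
    hqN.trans (Real.rpow_le_rpow_of_exponent_le hN1 (by linarith))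
  have hcard : ((s N).card : ℝ) ≤ N := by
    have h1 := Finset.card_le_card (hs N)
    rw [Nat.card_Ioc] at h1
    exact_mod_cast (by omega : (s N).card ≤ N)
  have h1 := discJ hr (s N) x K q hK1' hq h3q ((N : ℝ) ^ (1 - η)) (by positivity) (by
    intro h hh hhK
    refine hN₁ N (by omega) h hh (fun j => ?_) q hq hqη
    have h2 : (((h j).natAbs : ℕ) : ℝ) ≤ ((K ^ 3 : ℕ) : ℝ) := by exact_mod_cast (hhK j).le
    rw [Nat.cast_natAbs, Int.cast_abs] at h2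
    refine h2.trans ?_
    push_cast
    calc (K : ℝ) ^ 3 ≤ (2 * (N : ℝ) ^ θ) ^ 3 := by gcongr
      _ = 8 * (N : ℝ) ^ (3 * θ) := by
          rw [mul_pow, ← Real.rpow_natCast ((N : ℝ) ^ θ) 3, ← Real.rpow_mul hN0.le]
          norm_num
          ring_nf
      _ ≤ _ := h3θ) ρ
  refine h1.trans ?_
  have hqr : (q : ℝ) ^ r ≤ (N : ℝ) ^ (θ / 4) := by
    calc (q : ℝ) ^ r ≤ ((N : ℝ) ^ δ) ^ r := by gcongr
      _ = (N : ℝ) ^ (r * δ) := by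
          rw [← Real.rpow_natCast, ← Real.rpow_mul hN0.le, mul_comm]
      _ ≤ _ := Real.rpow_le_rpow_of_exponent_le hN1 hδθ
  have hE1 : (3 * (r : ℝ) + 4) * (s N).card / K ≤ (3 * r + 4) * (N : ℝ) ^ (1 - θ) := by
    rw [div_le_iff₀ hK0]
    calc (3 * (r : ℝ) + 4) * (s N).card ≤ (3 * r + 4) * N := by gcongr
      _ = (3 * r + 4) * ((N : ℝ) ^ (1 - θ) * (N : ℝ) ^ θ) := by
          rw [← Real.rpow_add hN0]; norm_num
      _ ≤ (3 * r + 4) * ((N : ℝ) ^ (1 - θ) * K) := by gcongr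
      _ = _ := by ring
  have hE2 : (K : ℝ) ^ (3 * r) * (N : ℝ) ^ (1 - η) ≤ 8 ^ r * (N : ℝ) ^ (1 - η / 2) := by
    calc (K : ℝ) ^ (3 * r) * (N : ℝ) ^ (1 - η) ≤ (2 * (N : ℝ) ^ θ) ^ (3 * r) * (N : ℝ) ^ (1 - η) := by
          gcongr
      _ = 8 ^ r * ((N : ℝ) ^ (3 * r * θ) * (N : ℝ) ^ (1 - η)) := by
          rw [mul_pow, pow_mul (2 : ℝ) 3 r, ← Real.rpow_natCast ((N : ℝ) ^ θ), ← Real.rpow_mul hN0.le]
          push_cast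
          norm_num
          ring_nf
      _ = 8 ^ r * (N : ℝ) ^ (3 * r * θ + (1 - η)) := by rw [← Real.rpow_add hN0]
      _ ≤ _ := by
          have := Real.rpow_le_rpow_of_exponent_le hN1
            (show 3 * r * θ + (1 - η) ≤ 1 - η / 2 by linarith)
          gcongr
  calc (q : ℝ) ^ r * ((3 * r + 4) * (s N).card / K + (K : ℝ) ^ (3 * r) * (N : ℝ) ^ (1 - η))
      ≤ (N : ℝ) ^ (θ / 4) * ((3 * r + 4) * (N : ℝ) ^ (1 - θ) + 8 ^ r * (N : ℝ) ^ (1 - η / 2)) := by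
        gcongr
    _ = (2 * (3 * r + 4) * ((N : ℝ) ^ (1 - θ) * (N : ℝ) ^ (θ / 4)) +
          2 * 8 ^ r * ((N : ℝ) ^ (1 - η / 2) * (N : ℝ) ^ (θ / 4))) / 2 := by ring
    _ = (2 * (3 * r + 4) * (N : ℝ) ^ (1 - θ + θ / 4) +
          2 * 8 ^ r * (N : ℝ) ^ (1 - η / 2 + θ / 4)) / 2 := by
        rw [← Real.rpow_add hN0, ← Real.rpow_add hN0]
    _ ≤ ((N : ℝ) ^ (1 - δ) + (N : ℝ) ^ (1 - δ)) / 2 := by gcongr
    _ = _ := by ring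

theorem Equi.mono {r : ℕ} {s : ℕ → Finset ℕ} {x : ℕ → Fin r → ℝ} {δ δ' : ℝ} (h : Equi s x δ)
    (hδ' : 0 < δ') (hle : δ' ≤ δ) : Equi s x δ' := by
  obtain ⟨N₀, hN₀⟩ := h
  refine ⟨N₀ + 1, fun N hN q hq hqN ρ => ?_⟩
  have hN1 : (1 : ℝ) ≤ N := by exact_mod_cast (by omega : 1 ≤ N)
  refine (hN₀ N (by omega) q hq (hqN.trans (Real.rpow_le_rpow_of_exponent_le hN1 hle)) ρ).trans ?_
  exact Real.rpow_le_rpow_of_exponent_le hN1 (by linarith)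

theorem equi_ints {r : ℕ} {F : Fin r → Finset ℝ} {a : Fin r → ℝ → ℝ} {c : Fin r → ℝ} (hr : 1 ≤ r)
    (H : Fam F a c) : ∃ δ : ℝ, 0 < δ ∧ δ ≤ 1 / 2 ∧
      Equi (fun N => Ioc N (2 * N)) (val F a) δ :=
  equi_of_small hr _ (fun _ => Finset.Subset.refl _) _ (small_ints hr H)

theorem equi_primes {r : ℕ} {F : Fin r → Finset ℝ} {a : Fin r → ℝ → ℝ} {c : Fin r → ℝ} (hr : 1 ≤ r)
    (H : Fam F a c) : ∃ δ : ℝ, 0 < δ ∧ δ ≤ 1 / 2 ∧ Equi primes (val F a) δ :=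
  equi_of_small hr _ (fun _ => Finset.filter_subset _ _) _ (small_primes hr H)

end Pool.Agent.N666.VE
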