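import Pool.Agent.Y961.JR.PGMain
import Pool.Agent.Y961.JR.GenMain

set_option autoImplicit false

/-! # Exponential sums over the integers and the primes of a dyadic interval -/

namespace Pool.Agent.N666.VE

open Finset Filter
open Pool.Agent.H469R2.NK (e norm_e e_add conj_e norm_sum_neg)
open Pool.Agent.W147.PS (ff ff_compare ev_pow)
open Pool.Agent.TH915.PW (pw pw_der lower_small class_bound prime_bound abel_bound card_primes)
open Pool.Agent.Y961.JR

variable {r : ℕ} {F : Fin r → Finset ℝ} {a : Fin r → ℝ → ℝ} {c : Fin r → ℝ}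

/-- the values of the generalised polynomials -/
noncomputable def val {r : ℕ} (F : Fin r → Finset ℝ) (a : Fin r → ℝ → ℝ) (n : ℕ) (j : Fin r) : ℝ :=
  ∑ x ∈ F j, a j x * (n : ℝ) ^ x

/-- the primes of a dyadic interval -/
def primes (N : ℕ) : Finset ℕ := (Ioc N (2 * N)).filter Nat.Prime

/-- bounded exponential sums over the sets `s N` -/
def Small {r : ℕ} (s : ℕ → Finset ℕ) (x : ℕ → Fin r → ℝ) : Prop :=
  ∃ η : ℝ, 0 < η ∧ η ≤ 1 ∧ ∃ N₀ : ℕ, ∀ N : ℕ, N₀ ≤ N → ∀ h : Fin r → ℤ, h ≠ 0 →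
    (∀ j, |(h j : ℝ)| ≤ (N : ℝ) ^ η) → ∀ q : ℕ, 1 ≤ q → (q : ℝ) ≤ (N : ℝ) ^ η →
    ‖∑ n ∈ s N, e (∑ j, (h j : ℝ) * (x n j / q))‖ ≤ (N : ℝ) ^ (1 - η)

lemma EE_eq (h : Fin r → ℤ) (q : ℕ) (n : ℕ) :
    e (∑ j, (h j : ℝ) * (val F a n j / q)) = EE F a h q 0 n := by
  unfold EE val
  congr 1
  rw [gg_zero, zero_mul, add_zero, Finset.sum_div]
  apply Finset.sum_congr rfl
  intro j _
  ring

lemma gge_eq (h : Fin r → ℤ) (q : ℕ) (n : ℕ) :
    e (∑ j, (h j : ℝ) * (val F a n j / q)) = e (gg F a h 0 n / q) := by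
  rw [EE_eq]
  unfold EE
  rw [zero_mul, add_zero]

/-- the primes -/
theorem small_primes (hr : 1 ≤ r) (H : Fam F a c) : Small (r := r) primes (val F a) := by
  classical
  obtain ⟨η, τ, hη, hη4, hτ, hτ16, hτη, x₀, hvm⟩ := vm_all hr H
  have hlogev : ∀ᶠ Z : ℝ in atTop, Real.log (2 * Z) ≤ Z ^ (1 / 4 : ℝ) := by
    have e1 := (isLittleO_log_rpow_atTop (show (0 : ℝ) < 1 / 8 by norm_num)).def
      (show (0 : ℝ) < 1 by norm_num)
    have e2 : Tendsto (fun Z : ℝ => 2 * Z) atTop atTop := tendsto_id.const_mul_atTop (by norm_num)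
    filter_upwards [e2.eventually e1, eventually_ge_atTop (1 : ℝ),
      ev_pow (1 / 8) (1 / 4) (2 ^ (1 / 8 : ℝ)) (by norm_num)] with Z e3 e4 e5
    rw [Real.norm_eq_abs, Real.norm_eq_abs, abs_of_nonneg (Real.log_nonneg (by linarith)),
      abs_of_nonneg (by positivity), one_mul, Real.mul_rpow (by norm_num) (by linarith)] at e3
    linarith
  have hev : ∀ᶠ Z : ℝ in atTop, Real.log (2 * Z) ≤ Z ^ (1 / 4 : ℝ) ∧ 4 ≤ Z ∧ x₀ ≤ Z ∧
      4 * Z ^ (3 / 4 : ℝ) ≤ Z ^ (1 - τ) ∧ 2 * Z ^ (1 - τ) ≤ Z ^ (1 - τ / 2) := by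
    filter_upwards [hlogev, eventually_ge_atTop (4 : ℝ), eventually_ge_atTop x₀,
      ev_pow (3 / 4) (1 - τ) 4 (by linarith), ev_pow (1 - τ) (1 - τ / 2) 2 (by linarith)]
      with Z h1 h2 h3 h4 h5
    exact ⟨h1, h2, h3, h4, h5⟩
  obtain ⟨Z₀, hZ₀⟩ := eventually_atTop.mp hev
  refine ⟨τ / 2, by positivity, by linarith, ⌈Z₀⌉₊ + 4, ?_⟩
  intro N hN h hh hhN q hq hqN
  have hNZ : Z₀ ≤ N := (Nat.le_ceil Z₀).trans (by exact_mod_cast (by omega : ⌈Z₀⌉₊ ≤ N))
  obtain ⟨hlog, hN4, hNx, hp1, hp2⟩ := hZ₀ N hNZ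
  have hN4' : 4 ≤ N := by exact_mod_cast hN4
  have hN0 : (0 : ℝ) < N := by linarith
  have hN1 : (1 : ℝ) ≤ N := by linarith
  have hηle : (N : ℝ) ^ (τ / 2) ≤ (N : ℝ) ^ η :=
    Real.rpow_le_rpow_of_exponent_le hN1 (by linarith)
  rw [sum_congr rfl (fun n _ => EE_eq h q n)]
  set E : ℝ := 2 * (N : ℝ) ^ (1 - τ) with hE
  set A : ℕ → ℂ := fun n => (((if n.Prime then Real.log n else 0 : ℝ)) : ℂ) *
        EE F a h q 0 n with hA
  have hcls : ∀ t : ℕ, N < t → t ≤ 2 * N → ‖∑ n ∈ Ioc N t, A n‖ ≤ E := by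
    intro t ht1 ht2
    have htr : (t : ℝ) ≤ 2 * N := by exact_mod_cast ht2
    have ht0 : 1 ≤ t := by omega
    have htlog : 2 * √(t : ℝ) * Real.log t ≤ (N : ℝ) ^ (1 - τ) := by
      have h7 : √(t : ℝ) ≤ 2 * (N : ℝ) ^ (1 / 2 : ℝ) := by
        rw [← Real.sqrt_eq_rpow]
        calc √(t : ℝ) ≤ √(2 ^ 2 * N) := Real.sqrt_le_sqrt (by linarith)
          _ = 2 * √N := by rw [Real.sqrt_mul (by norm_num), Real.sqrt_sq (by norm_num)]
      have h8 : Real.log (t : ℝ) ≤ (N : ℝ) ^ (1 / 4 : ℝ) := by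
        refine le_trans ?_ hlog
        apply Real.log_le_log _ htr
        exact_mod_cast ht0
      have h9 : 0 ≤ Real.log (t : ℝ) := Real.log_nonneg (by exact_mod_cast ht0)
      calc 2 * √(t : ℝ) * Real.log t ≤ 2 * (2 * (N : ℝ) ^ (1 / 2 : ℝ)) * (N : ℝ) ^ (1 / 4 : ℝ) := by
            gcongr
        _ = 4 * ((N : ℝ) ^ (1 / 2 : ℝ) * (N : ℝ) ^ (1 / 4 : ℝ)) := by ring
        _ = 4 * (N : ℝ) ^ (3 / 4 : ℝ) := by rw [← Real.rpow_add hN0]; norm_num
        _ ≤ _ := hp1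
    have hsplit := hvm N hNx h hh (fun j => (hhN j).trans hηle) q hq (hqN.trans hηle) 0 t ht1.le ht2
    have h2 := prime_bound N t ht0 (fun n => EE F a h q 0 n) (fun n => (norm_e _).le) _ hsplit
    refine h2.trans ?_
    rw [hE]
    linarith
  set w : ℕ → ℝ := fun n => (Real.log n)⁻¹ with hw
  have hlogpos : ∀ n : ℕ, N < n → 1 ≤ Real.log n := by
    intro n hn
    rw [Real.le_log_iff_exp_le (by
      have : 0 < n := by omega
      exact_mod_cast this)]
    have h1 := Real.exp_one_lt_d9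
    have h2 : (5 : ℝ) ≤ n := by exact_mod_cast (by omega : 5 ≤ n)
    linarith
  have hab := abel_bound w A N E (fun n hn => by
      have := hlogpos n hn
      rw [hw]
      positivity) (fun n hn => by
      have h1 := hlogpos n hn
      rw [hw]
      simp only
      apply inv_anti₀ (by linarith)
      apply Real.log_le_log
      · have : 0 < n := by omega
        exact_mod_cast this
      · push_cast
        linarith) (2 * N) (by omega) (fun t ht1 ht2 => hcls t ht1 ht2)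
  have hsum : ∑ p ∈ primes N, EE F a h q 0 p = ∑ i ∈ Ioc N (2 * N), (w i : ℂ) * A i := by
    rw [primes, sum_filter]
    refine sum_congr rfl fun n hn => ?_
    have hn0 := hlogpos n (Finset.mem_Ioc.mp hn).1
    rw [hA, hw]
    simp only
    by_cases h2 : n.Prime
    · rw [if_pos h2, if_pos h2, ← mul_assoc]
      rw [← Complex.ofReal_mul, inv_mul_cancel₀ (by linarith), Complex.ofReal_one, one_mul]
    · rw [if_neg h2, if_neg h2]
      simp
  rw [hsum]
  refine hab.trans ?_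
  have hw1 : w (N + 1) ≤ 1 := by
    rw [hw]
    exact inv_le_one_of_one_le₀ (hlogpos (N + 1) (by omega))
  have hE0 : 0 ≤ E := by positivity
  calc w (N + 1) * E ≤ 1 * E := mul_le_mul_of_nonneg_right hw1 hE0
    _ = 2 * (N : ℝ) ^ (1 - τ) := by rw [one_mul]
    _ ≤ _ := hp2

/-- splitting an interval into classes modulo `q` -/
lemma sum_classes (f : ℕ → ℂ) (N q : ℕ) (hq : 1 ≤ q) (B : ℝ)
    (h : ∀ i < q, ‖∑ m ∈ range ((2 * N - (N + 1 + i)) / q + 1), f (N + 1 + i + q * m)‖ ≤ B)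
    (hqN : q ≤ N) :
    ‖∑ n ∈ Ioc N (2 * N), f n‖ ≤ q * B := by
  classical
  have key : ∑ n ∈ Ioc N (2 * N), f n =
      ∑ i ∈ range q, ∑ m ∈ range ((2 * N - (N + 1 + i)) / q + 1), f (N + 1 + i + q * m) := by
    rw [Finset.sum_sigma']
    symm
    refine Finset.sum_bij' (fun x _ => N + 1 + x.1 + q * x.2)
      (fun n _ => ⟨(n - (N + 1)) % q, (n - (N + 1)) / q⟩) ?_ ?_ ?_ ?_ ?_
    · rintro ⟨i, m⟩ hx
      rw [Finset.mem_sigma, Finset.mem_range, Finset.mem_range] at hx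
      obtain ⟨h1, h2⟩ := hx
      simp only at h1 h2 ⊢
      rw [Finset.mem_Ioc]
      have h3 : m ≤ (2 * N - (N + 1 + i)) / q := by omega
      have h4 : q * m ≤ 2 * N - (N + 1 + i) := by
        rw [mul_comm]
        exact (Nat.le_div_iff_mul_le (by omega)).mp h3
      constructor
      · omega
      · omega
    · intro n hn
      rw [Finset.mem_Ioc] at hn
      rw [Finset.mem_sigma, Finset.mem_range, Finset.mem_range]
      refine ⟨Nat.mod_lt _ (by omega), ?_⟩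
      simp only
      apply Nat.lt_succ_of_le
      rw [Nat.le_div_iff_mul_le (by omega)]
      have h1 := Nat.mod_add_div (n - (N + 1)) q
      have h2 : (n - (N + 1)) / q * q = q * ((n - (N + 1)) / q) := mul_comm _ _
      omega
    · rintro ⟨i, m⟩ hx
      rw [Finset.mem_sigma, Finset.mem_range, Finset.mem_range] at hx
      obtain ⟨h1, h2⟩ := hx
      simp only at h1 h2 ⊢
      have h3 : N + 1 + i + q * m - (N + 1) = i + q * m := by omega
      rw [h3]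
      have h4 : (i + q * m) % q = i := by
        rw [Nat.add_mul_mod_self_left, Nat.mod_eq_of_lt h1]
      have h5 : (i + q * m) / q = m := by
        rw [Nat.add_mul_div_left _ _ (by omega), Nat.div_eq_of_lt h1, zero_add]
      rw [h4, h5]
    · intro n hn
      rw [Finset.mem_Ioc] at hn
      simp only
      have h1 := Nat.mod_add_div (n - (N + 1)) q
      omega
    · rintro ⟨i, m⟩ _
      rfl
  rw [key]
  calc ‖∑ i ∈ range q, ∑ m ∈ range ((2 * N - (N + 1 + i)) / q + 1), f (N + 1 + i + q * m)‖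
      ≤ ∑ i ∈ range q, ‖∑ m ∈ range ((2 * N - (N + 1 + i)) / q + 1), f (N + 1 + i + q * m)‖ :=
        norm_sum_le _ _
    _ ≤ ∑ i ∈ range q, B := Finset.sum_le_sum fun i hi => h i (Finset.mem_range.mp hi)
    _ = q * B := by rw [Finset.sum_const, Finset.card_range, nsmul_eq_mul]

/-- the integers -/
theorem small_ints (hr : 1 ≤ r) (H : Fam F a c) :
    Small (r := r) (fun N => Ioc N (2 * N)) (val F a) := by
  classical
  obtain ⟨η₀, hη₀, hη₀4, hgg⟩ := gg_exp hr H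
  have h1 := hgg (η₀ / 2) η₀ (by positivity) (by linarith) le_rfl
  have hev : ∀ᶠ Z : ℝ in atTop, 4 ≤ Z ∧ 4 * Z ^ (1 - η₀ / 2) ≤ Z ^ (1 - η₀ / 4) ∧
      Z ^ (1 - η₀) / 2 ≤ Z ^ (1 - η₀ / 4 ) ∧ Z ^ (η₀ / 4) ≤ Z / 4 := by
    filter_upwards [eventually_ge_atTop (4 : ℝ),
      ev_pow (1 - η₀ / 2) (1 - η₀ / 4) 4 (by linarith),
      ev_pow (1 - η₀) (1 - η₀ / 4) 1 (by linarith), ev_pow (η₀ / 4) 1 4 (by linarith)]
      with Z h2 h3 h4 h5
    rw [Real.rpow_one] at h5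
    refine ⟨h2, h3, ?_, by linarith⟩
    have : 0 ≤ Z ^ (1 - η₀) := by positivity
    linarith
  obtain ⟨Z₀, hZ₀⟩ := eventually_atTop.mp (h1.and hev)
  refine ⟨η₀ / 4, by positivity, by linarith, ⌈Z₀⌉₊ + 4, ?_⟩
  intro N hN h hh hhN q hq hqN
  have hNZ : Z₀ ≤ N := (Nat.le_ceil Z₀).trans (by exact_mod_cast (by omega : ⌈Z₀⌉₊ ≤ N))
  obtain ⟨hM, hN4, hp1, hp2, hp3⟩ := hZ₀ N hNZ
  have hN0 : (0 : ℝ) < N := by linarith
  have hN1 : (1 : ℝ) ≤ N := by linarith
  have hq0 : (0 : ℝ) < q := by exact_mod_cast hq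
  have hle : (N : ℝ) ^ (η₀ / 4) ≤ (N : ℝ) ^ (η₀ / 2) :=
    Real.rpow_le_rpow_of_exponent_le hN1 (by linarith)
  have hqN' : (q : ℝ) ≤ N / 4 := hqN.trans hp3
  have hqN'' : q ≤ N := by
    have : (q : ℝ) ≤ N := by linarith
    exact_mod_cast this
  rw [sum_congr rfl (fun n _ => gge_eq h q n)]
  -- the number of terms of a class
  set B : ℕ := ⌈(2 * (N : ℝ) / q + (N : ℝ) ^ (1 - η₀) / 2)⌉₊ with hB
  have hB1 : 2 * (N : ℝ) / q + (N : ℝ) ^ (1 - η₀) / 2 ≤ B := Nat.le_ceil _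
  have hB2 : (B : ℝ) ≤ 2 * (N : ℝ) / q + (N : ℝ) ^ (1 - η₀) / 2 + 1 := by
    have := Nat.ceil_lt_add_one (show 0 ≤ 2 * (N : ℝ) / q + (N : ℝ) ^ (1 - η₀) / 2 by positivity)
    linarith
  have hcl := sum_classes (fun n => e (gg F a h 0 n / q)) N q hq (B * (N : ℝ) ^ (-(η₀ / 2))) (by
    intro i hi
    have h2 := hM h hh (fun j => (hhN j).trans hle) q hq (hqN.trans hle) (N + 1 + i)
      ((2 * N - (N + 1 + i)) / q + 1) B (by push_cast; linarith [(Nat.cast_nonneg i : (0:ℝ) ≤ i)])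
      (by
        have h3 : (2 * N - (N + 1 + i)) / q * q ≤ 2 * N - (N + 1 + i) := Nat.div_mul_le_self _ _
        have h4 : N + 1 + i + q * ((2 * N - (N + 1 + i)) / q + 1) ≤ 2 * N + q + q := by
          have h5 : q * ((2 * N - (N + 1 + i)) / q + 1) = (2 * N - (N + 1 + i)) / q * q + q := by ring
          rw [h5]
          omega
        have h6 : ((N + 1 + i : ℕ) : ℝ) + q * ((2 * N - (N + 1 + i)) / q + 1 : ℕ) ≤
            2 * N + q + q := by exact_mod_cast h4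
        push_cast at h6 ⊢
        linarith)
      (by
        have h3 : (2 * N - (N + 1 + i)) / q ≤ 2 * N / q := Nat.div_le_div_right (by omega)
        have h4 : (((2 * N - (N + 1 + i)) / q : ℕ) : ℝ) ≤ (N : ℝ) / q := by
          refine (Nat.cast_div_le (α := ℝ)).trans ?_
          gcongr
          exact_mod_cast (by omega : 2 * N - (N + 1 + i) ≤ N)
        have h5 : (1 : ℝ) ≤ (N : ℝ) / q := by
          rw [le_div_iff₀ hq0]; linarith
        have h6 : (((2 * N - (N + 1 + i)) / q + 1 : ℕ) : ℝ) ≤ B := by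
          push_cast
          have : (0:ℝ) ≤ (N : ℝ) ^ (1 - η₀) / 2 := by positivity
          have h7 : 2 * (N : ℝ) / q = (N : ℝ) / q + N / q := by ring
          push_cast at h4
          linarith
        exact_mod_cast h6)
      (by
        have : 0 ≤ 2 * (N : ℝ) / q := by positivity
        linarith)
    have e1 : ∀ m : ℕ, gg F a h 0 (((N + 1 + i : ℕ) : ℝ) + q * m) / q =
        gg F a h 0 ((N + 1 + i + q * m : ℕ) : ℝ) / q := by
      intro m
      congr 2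
      push_cast
      ring
    refine le_trans (le_of_eq ?_) h2
    congr 1
    refine sum_congr rfl fun m _ => ?_
    rw [← e1 m]) hqN''
  refine hcl.trans ?_
  have hpos : 0 < (N : ℝ) ^ (-(η₀ / 2)) := by positivity
  calc (q : ℝ) * (B * (N : ℝ) ^ (-(η₀ / 2)))
      ≤ q * ((2 * (N : ℝ) / q + (N : ℝ) ^ (1 - η₀) / 2 + 1) * (N : ℝ) ^ (-(η₀ / 2))) := by gcongr
    _ = (2 * N + q * ((N : ℝ) ^ (1 - η₀) / 2) + q) * (N : ℝ) ^ (-(η₀ / 2)) := by
        field_simp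
    _ ≤ (2 * N + N / 2 + N / 4) * (N : ℝ) ^ (-(η₀ / 2)) := by
        gcongr
        calc (q : ℝ) * ((N : ℝ) ^ (1 - η₀) / 2) ≤ (N : ℝ) ^ (η₀ / 4) * ((N : ℝ) ^ (1 - η₀) / 2) := by
              gcongr
          _ = (N : ℝ) ^ (η₀ / 4 + (1 - η₀)) / 2 := by rw [Real.rpow_add hN0]; ring
          _ ≤ (N : ℝ) ^ (1 : ℝ) / 2 := by
              have := Real.rpow_le_rpow_of_exponent_le hN1
                (show η₀ / 4 + (1 - η₀) ≤ 1 by linarith)
              linarith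
          _ = N / 2 := by rw [Real.rpow_one]
    _ ≤ 4 * (N * (N : ℝ) ^ (-(η₀ / 2))) := by nlinarith
    _ = 4 * (N : ℝ) ^ (1 - η₀ / 2) := by
        rw [sub_eq_add_neg, Real.rpow_add hN0, Real.rpow_one]
    _ ≤ _ := hp1

end Pool.Agent.N666.VE
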