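import Pool.Agent.N666.VE.Equi
import Pool.Agent.N666.VE.Cls
import Pool.Agent.N741.LD.Fin

set_option autoImplicit false

/-! # The Fermat-Catalan equation with two bases near the values of two generalised polynomials -/

namespace Pool.Agent.N666.VE

open Finset Filter
open Pool.Agent.W147.PS (ev_pow)
open Pool.Agent.H374R2.Beal (Exceptional)
open Pool.Agent.H374R2.T (Good2)
open Pool.Agent.Y961.JR (Fam)

/-- `x`, `y` are coprime and two of the bases of a solution with third base at most `W`, the exponents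
are at least two, the third one is at least three if both exponents of `x` and `y` are even. -/
def BadPair (W : ℝ) (x y : ℕ) : Prop := ∃ z p q r : ℕ, 1 ≤ x ∧ 1 ≤ y ∧ Nat.Coprime x y ∧ 1 ≤ z ∧
  (z : ℝ) ≤ W ∧ 2 ≤ p ∧ 2 ≤ q ∧ 2 ≤ r ∧ (3 ≤ r ∨ ¬ 2 ∣ p ∨ ¬ 2 ∣ q) ∧
  (x ^ p + y ^ q = z ^ r ∨ x ^ p + z ^ r = y ^ q ∨ y ^ q + z ^ r = x ^ p)

/-- the pair `(x, y)` is within `U` of `v` -/
def Near (U : ℕ) (v : Fin 2 → ℝ) (x y : ℕ) : Prop := |(x : ℝ) - v 0| ≤ U ∧ |(y : ℝ) - v 1| ≤ U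

lemma near_floor {U b : ℕ} {X : ℝ} (h : |(b : ℝ) - X| ≤ U) :
    ∃ u ∈ Finset.Icc (-((U : ℤ) + 1)) ((U : ℤ) + 1), (b : ℤ) = ⌊X⌋ + u := by
  refine ⟨(b : ℤ) - ⌊X⌋, ?_, by ring⟩
  have h1 := Int.floor_le X
  have h2 := Int.lt_floor_add_one X
  obtain ⟨h3, h4⟩ := abs_le.mp h
  rw [Finset.mem_Icc]
  constructor
  · have : (-((U : ℝ) + 1)) ≤ (b : ℝ) - ⌊X⌋ := by linarith
    exact_mod_cast this
  · have : (b : ℝ) - ⌊X⌋ ≤ (U : ℝ) + 1 := by linarith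
    exact_mod_cast this

/-- the number of `n` with a near pair in given classes -/
lemma card_near (s : Finset ℕ) (x : ℕ → Fin 2 → ℝ) (U M : ℕ) (S : Finset (ℕ × ℕ)) (B : ℝ)
    (hB : ∀ ρ : Fin 2 → ℤ, ((cls s x M ρ).card : ℝ) ≤ B) (P : ℕ → Prop) [DecidablePred P]
    (hP : ∀ n ∈ s, P n → ∃ a b : ℕ, Near U (x n) a b ∧ (a % M, b % M) ∈ S) :
    ((s.filter P).card : ℝ) ≤ (2 * U + 3) ^ 2 * S.card * B := by
  classical
  set I : Finset ℤ := Finset.Icc (-((U : ℤ) + 1)) ((U : ℤ) + 1) with hI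
  have hIc : I.card = 2 * U + 3 := by
    rw [hI, Int.card_Icc]; omega
  have hsub : s.filter P ⊆ ((I ×ˢ I) ×ˢ S).biUnion
      (fun t => cls s x M ![(t.2.1 : ℤ) - t.1.1, (t.2.2 : ℤ) - t.1.2]) := by
    intro n hn
    rw [Finset.mem_filter] at hn
    obtain ⟨a, b, ⟨h1, h2⟩, h3⟩ := hP n hn.1 hn.2
    obtain ⟨u, hu, hu'⟩ := near_floor h1
    obtain ⟨v, hv, hv'⟩ := near_floor h2
    rw [Finset.mem_biUnion]
    refine ⟨((u, v), (a % M, b % M)), ?_, ?_⟩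
    · rw [Finset.mem_product, Finset.mem_product]
      exact ⟨⟨hu, hv⟩, h3⟩
    · unfold cls
      rw [Finset.mem_filter]
      refine ⟨hn.1, ?_⟩
      have key : ∀ (a : ℕ) (w t : ℤ), (a : ℤ) = w + t → (M : ℤ) ∣ w - (((a % M : ℕ) : ℤ) - t) := by
        intro a w t h
        have h4 : w - (((a % M : ℕ) : ℤ) - t) = (a : ℤ) - (a : ℤ) % (M : ℤ) := by
          push_cast
          rw [h]; ring
        rw [h4]
        exact Int.dvd_self_sub_emod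
      intro j
      fin_cases j
      · exact key a _ u hu'
      · exact key b _ v hv'
  have h1 : (s.filter P).card ≤ ∑ t ∈ (I ×ˢ I) ×ˢ S,
      (cls s x M ![(t.2.1 : ℤ) - t.1.1, (t.2.2 : ℤ) - t.1.2]).card :=
    (Finset.card_le_card hsub).trans Finset.card_biUnion_le
  have h2 : ((s.filter P).card : ℝ) ≤ ∑ t ∈ (I ×ˢ I) ×ˢ S,
      ((cls s x M ![(t.2.1 : ℤ) - t.1.1, (t.2.2 : ℤ) - t.1.2]).card : ℝ) := by exact_mod_cast h1
  refine h2.trans ((Finset.sum_le_sum fun t _ => hB _).trans ?_)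
  rw [Finset.sum_const, Finset.card_product, Finset.card_product, hIc, nsmul_eq_mul]
  push_cast
  apply le_of_eq
  ring

lemma cls_le {s : ℕ → Finset ℕ} {x : ℕ → Fin 2 → ℝ} {N q : ℕ} {δ : ℝ} {ρ : Fin 2 → ℤ}
    (h : |((cls (s N) x q ρ).card : ℝ) - (s N).card / (q : ℝ) ^ 2| ≤ (N : ℝ) ^ (1 - δ)) :
    ((cls (s N) x q ρ).card : ℝ) ≤ (s N).card / (q : ℝ) ^ 2 + (N : ℝ) ^ (1 - δ) := by
  have := (abs_le.mp h).2
  linarith

/-- the sieve along the sequence -/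
lemma sieve {E : Set (ℕ × ℕ)} (hE : CN E) (s : ℕ → Finset ℕ) (x : ℕ → Fin 2 → ℝ) (δ : ℝ)
    (hδ : 0 < δ) (hEq : Equi s x δ) (U : ℕ) (ε : ℝ) (hε : 0 < ε) (P : ℕ → Prop) [DecidablePred P] :
    ∃ C : ℝ, ∃ N₀ : ℕ, ∀ N : ℕ, N₀ ≤ N →
      (∀ n ∈ s N, P n → ∃ a b : ℕ, Near U (x n) a b ∧ (a, b) ∈ E) →
      (((s N).filter P).card : ℝ) ≤ ε * (s N).card + C * (N : ℝ) ^ (1 - δ) := by
  classical
  obtain ⟨M, hM, S, hS1, hS2, hS3⟩ := hE (ε / (2 * U + 3) ^ 2) (by positivity)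
  obtain ⟨N₁, hN₁⟩ := hEq
  have hM0 : (0 : ℝ) < M := by exact_mod_cast hM
  have hev : ∀ᶠ Z : ℝ in atTop, (M : ℝ) ≤ Z ^ δ :=
    (tendsto_rpow_atTop hδ).eventually_ge_atTop _
  obtain ⟨Z₀, hZ₀⟩ := eventually_atTop.mp hev
  refine ⟨(2 * U + 3) ^ 2 * S.card, ⌈Z₀⌉₊ + N₁, fun N hN hP => ?_⟩
  have hNZ : Z₀ ≤ N := (Nat.le_ceil Z₀).trans (by exact_mod_cast (by omega : ⌈Z₀⌉₊ ≤ N))
  have h1 := card_near (s N) x U M S _ (fun ρ => cls_le (hN₁ N (by omega) M hM (hZ₀ N hNZ) ρ)) P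
    (fun n hn hPn => by
      obtain ⟨a, b, h2, h3⟩ := hP n hn hPn
      exact ⟨a, b, h2, hS3 _ h3⟩)
  refine h1.trans ?_
  rw [mul_add]
  have h2 : ((2 * (U : ℝ) + 3) ^ 2 * S.card) * ((s N).card / (M : ℝ) ^ 2) ≤ ε * (s N).card := by
    rw [← mul_div_assoc, div_le_iff₀ (by positivity)]
    have h3 : (2 * (U : ℝ) + 3) ^ 2 * S.card ≤ ε * (M : ℝ) ^ 2 := by
      calc (2 * (U : ℝ) + 3) ^ 2 * S.card ≤ (2 * U + 3) ^ 2 * (ε / (2 * U + 3) ^ 2 * (M : ℝ) ^ 2) := by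
            gcongr
        _ = _ := by field_simp
    have h4 : (0 : ℝ) ≤ (s N).card := Nat.cast_nonneg _
    calc (2 * (U : ℝ) + 3) ^ 2 * S.card * (s N).card ≤ (ε * (M : ℝ) ^ 2) * (s N).card := by gcongr
      _ = _ := by ring
  linarith

/-- few `n` belong to one pair -/
lemma one_pair (s : ℕ → Finset ℕ) (hs : ∀ N, s N ⊆ Ioc N (2 * N)) (x : ℕ → Fin 2 → ℝ) (δ : ℝ)
    (hδ : 0 < δ) (hEq : Equi s x δ) (U : ℕ) : ∃ N₀ : ℕ, ∀ N : ℕ, N₀ ≤ N → ∀ T : Finset (ℕ × ℕ),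
      ∀ (P : ℕ → Prop) [DecidablePred P],
      (∀ n ∈ s N, P n → ∃ a b : ℕ, Near U (x n) a b ∧ (a, b) ∈ T) →
      (((s N).filter P).card : ℝ) ≤ (2 * U + 3) ^ 2 * T.card * (5 * (N : ℝ) ^ (1 - δ)) := by
  classical
  obtain ⟨N₁, hN₁⟩ := hEq
  have hev : ∀ᶠ Z : ℝ in atTop, 1 ≤ Z ∧ 1 ≤ Z ^ δ :=
    (eventually_ge_atTop (1 : ℝ)).and ((tendsto_rpow_atTop hδ).eventually_ge_atTop _)
  obtain ⟨Z₀, hZ₀⟩ := eventually_atTop.mp hev
  refine ⟨⌈Z₀⌉₊ + N₁, fun N hN T P _ hP => ?_⟩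
  have hNZ : Z₀ ≤ N := (Nat.le_ceil Z₀).trans (by exact_mod_cast (by omega : ⌈Z₀⌉₊ ≤ N))
  obtain ⟨hN1, hNδ⟩ := hZ₀ N hNZ
  have hN0 : (0 : ℝ) < N := by linarith
  set q : ℕ := ⌊(N : ℝ) ^ δ⌋₊ with hq
  have hq1 : 1 ≤ q := Nat.le_floor (by exact_mod_cast hNδ)
  have hqle : (q : ℝ) ≤ (N : ℝ) ^ δ := Nat.floor_le (by positivity)
  have hqge : (N : ℝ) ^ δ / 2 ≤ q := by
    have h1 := Nat.lt_floor_add_one ((N : ℝ) ^ δ)
    have h2 : (1 : ℝ) ≤ q := by exact_mod_cast hq1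
    rw [← hq] at h1
    linarith
  have hq0 : (0 : ℝ) < q := by exact_mod_cast hq1
  have hcard : ((s N).card : ℝ) ≤ N := by
    have h1 := Finset.card_le_card (hs N)
    rw [Nat.card_Ioc] at h1
    exact_mod_cast (by omega : (s N).card ≤ N)
  have hB : ∀ ρ : Fin 2 → ℤ, ((cls (s N) x q ρ).card : ℝ) ≤ 5 * (N : ℝ) ^ (1 - δ) := by
    intro ρ
    refine (cls_le (hN₁ N (by omega) q hq1 hqle ρ)).trans ?_
    have h1 : ((s N).card : ℝ) / (q : ℝ) ^ 2 ≤ 4 * (N : ℝ) ^ (1 - δ) := by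
      rw [div_le_iff₀ (by positivity)]
      have h2 : ((N : ℝ) ^ δ / 2) ^ 2 ≤ (q : ℝ) ^ 2 := by gcongr
      have h3 : (N : ℝ) = (N : ℝ) ^ (1 - δ) * (N : ℝ) ^ δ := by
        rw [← Real.rpow_add hN0]; norm_num
      have hp : 0 < (N : ℝ) ^ (1 - δ) := by positivity
      calc ((s N).card : ℝ) ≤ N := hcard
        _ = (N : ℝ) ^ (1 - δ) * (N : ℝ) ^ δ := h3
        _ ≤ (N : ℝ) ^ (1 - δ) * ((N : ℝ) ^ δ * (N : ℝ) ^ δ) := by
            gcongr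
            nlinarith
        _ = 4 * (N : ℝ) ^ (1 - δ) * ((N : ℝ) ^ δ / 2) ^ 2 := by ring
        _ ≤ _ := by gcongr
    linarith
  have h1 := card_near (s N) x U q (T.image (fun p => (p.1 % q, p.2 % q))) _ hB P
    (fun n hn hPn => by
      obtain ⟨a, b, h2, h3⟩ := hP n hn hPn
      exact ⟨a, b, h2, Finset.mem_image.mpr ⟨(a, b), h3, rfl⟩⟩)
  refine h1.trans ?_
  have h2 : ((T.image (fun p => (p.1 % q, p.2 % q))).card : ℝ) ≤ T.card := by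
    exact_mod_cast Finset.card_image_le
  gcongr

/-- the values are bounded by a power -/
lemma val_bound (F : Fin 2 → Finset ℝ) (a : Fin 2 → ℝ → ℝ) (U : ℕ) : ∃ C N₀ : ℕ, ∀ N : ℕ, N₀ ≤ N →
    ∀ n ∈ Ioc N (2 * N), ∀ j, val F a n j + U ≤ (N : ℝ) ^ C := by
  classical
  obtain ⟨D, hD⟩ : ∃ D : ℕ, ∀ j, ∀ x ∈ F j, x ≤ D := by
    refine ⟨∑ j, ∑ x ∈ F j, ⌈|x|⌉₊, fun j x hx => ?_⟩
    have h1 : ⌈|x|⌉₊ ≤ ∑ x ∈ F j, ⌈|x|⌉₊ :=
      Finset.single_le_sum (f := fun x : ℝ => ⌈|x|⌉₊) (fun _ _ => Nat.zero_le _) hx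
    have h2 : ∑ x ∈ F j, ⌈|x|⌉₊ ≤ ∑ j, ∑ x ∈ F j, ⌈|x|⌉₊ :=
      Finset.single_le_sum (f := fun j => ∑ x ∈ F j, ⌈|x|⌉₊) (fun _ _ => Nat.zero_le _)
        (Finset.mem_univ j)
    calc x ≤ |x| := le_abs_self x
      _ ≤ ⌈|x|⌉₊ := Nat.le_ceil _
      _ ≤ _ := by exact_mod_cast h1.trans h2
  set A : ℝ := ∑ j, ∑ x ∈ F j, |a j x| with hA
  obtain ⟨K, hK⟩ := exists_nat_ge (2 ^ D * A + U)
  refine ⟨D + 1, K + 1, fun N hN n hn j => ?_⟩
  rw [Finset.mem_Ioc] at hn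
  have hN1 : (1 : ℝ) ≤ N := by exact_mod_cast (by omega : 1 ≤ N)
  have hNK : (K : ℝ) ≤ N := by exact_mod_cast (by omega : K ≤ N)
  have hn1 : (1 : ℝ) ≤ n := by exact_mod_cast (by omega : 1 ≤ n)
  have hn2 : (n : ℝ) ≤ 2 * N := by exact_mod_cast hn.2
  have hND : (1 : ℝ) ≤ (N : ℝ) ^ D := one_le_pow₀ hN1
  have h1 : val F a n j ≤ A * (2 * (N : ℝ)) ^ D := by
    unfold val
    calc ∑ x ∈ F j, a j x * (n : ℝ) ^ x ≤ ∑ x ∈ F j, |a j x| * (2 * (N : ℝ)) ^ D := by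
          apply Finset.sum_le_sum
          intro x hx
          have h2 : (n : ℝ) ^ x ≤ (2 * (N : ℝ)) ^ D := by
            calc (n : ℝ) ^ x ≤ (n : ℝ) ^ (D : ℝ) :=
                  Real.rpow_le_rpow_of_exponent_le hn1 (hD j x hx)
              _ = (n : ℝ) ^ D := Real.rpow_natCast _ _
              _ ≤ _ := by gcongr
          have h3 : 0 ≤ (n : ℝ) ^ x := by positivity
          calc a j x * (n : ℝ) ^ x ≤ |a j x| * (n : ℝ) ^ x := by
                gcongr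
                exact le_abs_self _
            _ ≤ _ := by gcongr
      _ = (∑ x ∈ F j, |a j x|) * (2 * (N : ℝ)) ^ D := by rw [Finset.sum_mul]
      _ ≤ _ := by
          gcongr
          rw [hA]
          exact Finset.single_le_sum (f := fun j => ∑ x ∈ F j, |a j x|)
            (fun _ _ => Finset.sum_nonneg fun _ _ => abs_nonneg _) (Finset.mem_univ j)
  have hA0 : 0 ≤ A := Finset.sum_nonneg fun _ _ => Finset.sum_nonneg fun _ _ => abs_nonneg _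
  calc val F a n j + U ≤ A * (2 * (N : ℝ)) ^ D + U := by linarith
    _ = (2 ^ D * A) * (N : ℝ) ^ D + U := by rw [mul_pow]; ring
    _ ≤ (2 ^ D * A) * (N : ℝ) ^ D + U * (N : ℝ) ^ D := by
        have : (0 : ℝ) ≤ U := Nat.cast_nonneg _
        nlinarith
    _ = (2 ^ D * A + U) * (N : ℝ) ^ D := by ring
    _ ≤ N * (N : ℝ) ^ D := by
        gcongr
        linarith
    _ = (N : ℝ) ^ (D + 1) := by ring

/-- the exceptional pairs for small third exponents are covered by few classes -/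
lemma cn_small (R : ℕ) : CN ({p | ∃ n, 3 ≤ n ∧ n < R ∧ p ∈ Exceptional n} ∪
    ({p | ¬ Good2 p.1 p.2} ∪ Prod.swap ⁻¹' {p | ¬ Good2 p.1 p.2})) := by
  refine CN.union ?_ (cn_not_good2.union cn_not_good2.swap)
  induction R with
  | zero =>
    refine cn_empty.mono ?_
    rintro p ⟨n, h1, h2, -⟩
    omega
  | succ k ih =>
    by_cases hk : 3 ≤ k
    · refine (ih.union (cn_exceptional_null hk)).mono ?_
      rintro p ⟨n, h1, h2, h3⟩
      rcases Nat.lt_or_ge n k with h | h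
      · exact Or.inl ⟨n, h1, h, h3⟩
      · have : n = k := by omega
        rw [this] at h3
        exact Or.inr h3
    · refine cn_empty.mono ?_
      rintro p ⟨n, h1, h2, -⟩
      omega

/-- the main theorem for sequences with power saving equidistribution -/
theorem core (F : Fin 2 → Finset ℝ) (a : Fin 2 → ℝ → ℝ) (s : ℕ → Finset ℕ)
    (hs : ∀ N, s N ⊆ Ioc N (2 * N)) (δ : ℝ) (hδ : 0 < δ) (hEq : Equi s (val F a) δ)
    (hcard : ∀ᶠ N : ℕ in atTop, (N : ℝ) ^ (1 - δ / 4) ≤ (s N).card) (U : ℕ) :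
    ∃ κ : ℝ, 0 < κ ∧ ∀ ε : ℝ, 0 < ε → ∃ N₀ : ℕ, ∀ N : ℕ, N₀ ≤ N →
      ∀ (P : ℕ → Prop) [DecidablePred P],
      (∀ n ∈ s N, P n → ∃ x y : ℕ, Near U (val F a n) x y ∧ BadPair (Real.exp ((n : ℝ) ^ κ)) x y) →
      (((s N).filter P).card : ℝ) ≤ ε * (s N).card := by
  classical
  obtain ⟨C, N₁, hC⟩ := val_bound F a U
  obtain ⟨R, c, N₂, hc, hL⟩ := Pool.Agent.N741.LD.main (δ / (4 * (C + 1))) (by positivity)
  refine ⟨c / 2, by positivity, fun ε hε => ?_⟩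
  obtain ⟨N₃, hN₃⟩ := one_pair s hs (val F a) δ hδ hEq U
  obtain ⟨N₅, hN₅⟩ := eventually_atTop.mp hcard
  -- the sieve for small third exponents
  set P₀ : ℕ → Prop := fun n => ∃ x y : ℕ, Near U (val F a n) x y ∧
    (x, y) ∈ ({p | ∃ n, 3 ≤ n ∧ n < R ∧ p ∈ Exceptional n} ∪
    ({p | ¬ Good2 p.1 p.2} ∪ Prod.swap ⁻¹' {p | ¬ Good2 p.1 p.2}) : Set (ℕ × ℕ)) with hP₀
  obtain ⟨C₁, N₄, hN₄⟩ := sieve (cn_small R) s (val F a) δ hδ hEq U (ε / 2) (by positivity) P₀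
  have hev : ∀ᶠ Z : ℝ in atTop, 1 ≤ Z ∧ (2 * Z) ^ (c / 2) ≤ Z ^ c ∧
      (4 / ε * (|C₁| + (2 * U + 3) ^ 2 * 5)) * Z ^ (1 - δ + δ / 4) ≤ Z ^ (1 - δ / 4) := by
    filter_upwards [eventually_ge_atTop (1 : ℝ), ev_pow (c / 2) c (2 ^ (c / 2)) (by linarith),
      ev_pow (1 - δ + δ / 4) (1 - δ / 4) (4 / ε * (|C₁| + (2 * U + 3) ^ 2 * 5)) (by linarith)]
      with Z h1 h2 h3
    refine ⟨h1, ?_, h3⟩
    rw [Real.mul_rpow (by norm_num) (by linarith)]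
    exact h2
  obtain ⟨Z₀, hZ₀⟩ := eventually_atTop.mp hev
  refine ⟨⌈Z₀⌉₊ + N₁ + N₂ + N₃ + N₄ + N₅ + 1, fun N hN P _ hP => ?_⟩
  have hNZ : Z₀ ≤ N := (Nat.le_ceil Z₀).trans (by exact_mod_cast (by omega : ⌈Z₀⌉₊ ≤ N))
  obtain ⟨hN1, hNc, hNδ⟩ := hZ₀ N hNZ
  have hN0 : (0 : ℝ) < N := by linarith
  -- the pairs from the theorem on lopsided pairs
  set N' : ℕ := N ^ (C + 1) with hN'
  have hN'N : N ≤ N' := by
    rw [hN']
    exact Nat.le_self_pow (by omega) N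
  obtain ⟨hfin, hnc⟩ := hL N' (by omega)
  set Q : Set (ℕ × ℕ × ℕ × ℕ × ℕ) := Pool.Agent.N741.LD.Sols N' R (Real.exp ((N' : ℝ) ^ c)) with hQ
  set T : Finset (ℕ × ℕ) := hfin.toFinset.image (fun v => (v.1, v.2.1)) with hT
  have hTc : (T.card : ℝ) ≤ (N : ℝ) ^ (δ / 4) := by
    have h1 : T.card ≤ Q.ncard := by
      rw [Set.ncard_eq_toFinset_card Q hfin]
      exact Finset.card_image_le
    have h2 : (T.card : ℝ) ≤ (N' : ℝ) ^ (δ / (4 * (C + 1))) := by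
      refine le_trans ?_ hnc
      exact_mod_cast h1
    refine h2.trans (le_of_eq ?_)
    rw [hN']
    push_cast
    rw [← Real.rpow_natCast, ← Real.rpow_mul hN0.le]
    congr 1
    push_cast
    field_simp
  set P₁ : ℕ → Prop := fun n => ∃ x y : ℕ, Near U (val F a n) x y ∧ (x, y) ∈ T with hP₁
  have hcover : (s N).filter P ⊆ (s N).filter P₀ ∪ (s N).filter P₁ := by
    intro n hn
    rw [Finset.mem_filter] at hn
    obtain ⟨hns, hPn⟩ := hn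
    obtain ⟨x, y, hnear, z, p, q, r, hx, hy, hco, hz, hzW, hp, hq, hr, hpar, heq⟩ := hP n hns hPn
    have hnI := hs N hns
    have hnI' := Finset.mem_Ioc.mp hnI
    rw [Finset.mem_union, Finset.mem_filter, Finset.mem_filter]
    rcases Nat.lt_or_ge r R with hrR | hrR
    · left
      refine ⟨hns, x, y, hnear, ?_⟩
      rcases Nat.lt_or_ge r 3 with hr3 | hr3
      · have hr2 : r = 2 := by omega
        right
        by_contra hcon
        rw [Set.mem_union, not_or] at hcon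
        obtain ⟨h1, h2⟩ := hcon
        simp only [Set.mem_ofPred_eq, not_not, Set.mem_preimage, Prod.swap_prod_mk] at h1 h2
        rw [hr2] at heq
        have e1 : 2 ∣ q := Pool.Agent.H374R2.T.Good2.even (m := 1) (w := z) (x := p) h1 (by omega)
          (by rw [mul_one]; exact heq)
        have e2 : 2 ∣ p := Pool.Agent.H374R2.T.Good2.even (m := 1) (w := z) (x := q) h2 (by omega)
          (by
            rw [mul_one]
            rcases heq with h | h | h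
            · left; rw [add_comm]; exact h
            · right; right; exact h
            · right; left; exact h)
        rcases hpar with h | h | h
        · omega
        · exact h e2
        · exact h e1
      · left
        exact ⟨r, hr3, hrR, hx, hy, hco, p, q, z, by omega, by omega, by omega, heq⟩
    · right
      refine ⟨hns, x, y, hnear, ?_⟩
      rw [hT, Finset.mem_image]
      refine ⟨(x, y, x ^ p, y ^ q, z ^ r), ?_, rfl⟩
      rw [Set.Finite.mem_toFinset, hQ]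
      have hb := hC N (by omega) n hnI
      have hxN : x ≤ N' := by
        have h1 := (abs_le.mp hnear.1).2
        have h2 := hb 0
        have h3 : (x : ℝ) ≤ (N : ℝ) ^ C := by linarith
        have h4 : x ≤ N ^ C := by exact_mod_cast h3
        exact h4.trans (Nat.pow_le_pow_right (by omega) (by omega))
      have hyN : y ≤ N' := by
        have h1 := (abs_le.mp hnear.2).2
        have h2 := hb 1
        have h3 : (y : ℝ) ≤ (N : ℝ) ^ C := by linarith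
        have h4 : y ≤ N ^ C := by exact_mod_cast h3
        exact h4.trans (Nat.pow_le_pow_right (by omega) (by omega))
      refine ⟨x, y, z, p, q, r, hx, hxN, hy, hyN, hco, hz, ?_, hp, hq, hrR, heq, rfl⟩
      refine hzW.trans ?_
      rw [Real.exp_le_exp]
      have hn2 : (n : ℝ) ≤ 2 * N := by exact_mod_cast hnI'.2
      calc (n : ℝ) ^ (c / 2) ≤ (2 * (N : ℝ)) ^ (c / 2) := by gcongr
        _ ≤ (N : ℝ) ^ c := hNc
        _ ≤ (N' : ℝ) ^ c := by gcongr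
  have h0 := hN₄ N (by omega) (fun n _ h => h)
  have h1 := hN₃ N (by omega) T P₁ (fun n _ h => h)
  have h2 : (((s N).filter P).card : ℝ) ≤ ((s N).filter P₀).card + ((s N).filter P₁).card := by
    exact_mod_cast (Finset.card_le_card hcover).trans (Finset.card_union_le _ _)
  have h3 := hN₅ N (by omega)
  have hpow : (N : ℝ) ^ (1 - δ) * (N : ℝ) ^ (δ / 4) = (N : ℝ) ^ (1 - δ + δ / 4) := by
    rw [Real.rpow_add hN0]
  have hle1 : (N : ℝ) ^ (1 - δ) ≤ (N : ℝ) ^ (1 - δ + δ / 4) :=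
    Real.rpow_le_rpow_of_exponent_le hN1 (by linarith)
  have h4 : (2 * (U : ℝ) + 3) ^ 2 * T.card * (5 * (N : ℝ) ^ (1 - δ)) ≤
      (2 * U + 3) ^ 2 * 5 * (N : ℝ) ^ (1 - δ + δ / 4) := by
    rw [← hpow]
    calc (2 * (U : ℝ) + 3) ^ 2 * T.card * (5 * (N : ℝ) ^ (1 - δ)) ≤
        (2 * (U : ℝ) + 3) ^ 2 * (N : ℝ) ^ (δ / 4) * (5 * (N : ℝ) ^ (1 - δ)) := by gcongr
      _ = _ := by ring
  have h5 : C₁ * (N : ℝ) ^ (1 - δ) ≤ |C₁| * (N : ℝ) ^ (1 - δ + δ / 4) := by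
    have : C₁ * (N : ℝ) ^ (1 - δ) ≤ |C₁| * (N : ℝ) ^ (1 - δ) := by
      gcongr
      exact le_abs_self _
    refine this.trans ?_
    gcongr
  have h6 : (|C₁| + (2 * (U : ℝ) + 3) ^ 2 * 5) * (N : ℝ) ^ (1 - δ + δ / 4) ≤
      ε / 4 * (s N).card := by
    have h7 : (4 / ε * (|C₁| + (2 * (U : ℝ) + 3) ^ 2 * 5)) * (N : ℝ) ^ (1 - δ + δ / 4) ≤
        (s N).card := hNδ.trans h3
    have h8 : (|C₁| + (2 * (U : ℝ) + 3) ^ 2 * 5) * (N : ℝ) ^ (1 - δ + δ / 4) =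
        ε / 4 * ((4 / ε * (|C₁| + (2 * (U : ℝ) + 3) ^ 2 * 5)) * (N : ℝ) ^ (1 - δ + δ / 4)) := by
      field_simp
    rw [h8]
    gcongr
  have hs0 : (0 : ℝ) ≤ (s N).card := Nat.cast_nonneg _
  nlinarith

end Pool.Agent.N666.VE
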